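import Pool.Agent.LibXray.General

/-!
The definitions `Plane`, `chord` and `Admissible` are in `Pool.Agent.LibXray.Defs`; the proof is
in `Pool.Agent.LibXray.General` and the files it imports.
-/

namespace Pool.Agent.Results.MP_19f0f5_gt.TwoExteriorPoints

open Pool.Agent.LibXray

/-- For every pair of distinct points of the plane there are two different convex bodies,
admissible for the pair, with the same chord function at each of the two points. -/
theorem result (x₁ x₂ : Plane) (h : x₁ ≠ x₂) :
    ∃ K L : Set Plane, Admissible x₁ x₂ K ∧ Admissible x₁ x₂ L ∧ K ≠ L ∧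
      ∀ θ : ℝ, chord K x₁ θ = chord L x₁ θ ∧ chord K x₂ θ = chord L x₂ θ :=
  exists_pair_general x₁ x₂ h

end Pool.Agent.Results.MP_19f0f5_gt.TwoExteriorPoints
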